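import Mathlib
import Pool.Agent.Q84.Raj

/-!
# A perfect set containing all finite patterns that carries no measure with decaying Fourier
transform
-/

set_option autoImplicit false

namespace Pool.Agent.Results.MP_701998_an.NoDecayingMeasure

open MeasureTheory Filter Topology

/-- `E` contains an affine copy `a + bF`, `b ≠ 0`, of every finite set `F`. -/
def ContainsAllFinitePatterns (E : Set ℝ) : Prop :=
  ∀ F : Set ℝ, F.Finite → ∃ a b : ℝ, b ≠ 0 ∧ (fun x => a + b * x) '' F ⊆ E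

/-- The Fourier transform `μhat(ξ) = ∫ exp(-2πixξ) dμ(x)`. -/
noncomputable def fourierTransform (μ : Measure ℝ) (ξ : ℝ) : ℂ :=
  ∫ x, Complex.exp (-(2 * Real.pi * Complex.I * x * ξ)) ∂μ

/-- `μhat(ξ) → 0` as `|ξ| → ∞`. -/
def Decays (μ : Measure ℝ) : Prop := Tendsto (fourierTransform μ) (cocompact ℝ) (𝓝 0)

/-- `μ` is a measure supported on `E`: nonzero, finite, with (closed) support in `E`. -/
def IsMeasureOn (μ : Measure ℝ) (E : Set ℝ) : Prop :=
  IsFiniteMeasure μ ∧ μ ≠ 0 ∧ μ.support ⊆ E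

/-- The Fourier dimension of `A`. -/
noncomputable def fourierDim (A : Set ℝ) : ℝ :=
  sSup {s : ℝ | s ∈ Set.Icc (0 : ℝ) 1 ∧ ∃ ν : Measure ℝ, IsProbabilityMeasure ν ∧
    IsCompact ν.support ∧ ν.support ⊆ A ∧
    ∃ C : ℝ, ∀ ξ : ℝ, ‖fourierTransform ν ξ‖ ≤ C * (1 + |ξ|) ^ (-s / 2)}

/-- `A` is a Salem set: its Fourier and Hausdorff dimensions agree. -/
def IsSalem (A : Set ℝ) : Prop := ENNReal.ofReal (fourierDim A) = dimH A

/-- There is a perfect set `E ⊆ ℝ` containing all finite patterns such that no measure on `E` has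
decaying Fourier transform (Q1); in particular no measure on `E` has both decaying Fourier
transform and Salem support (Q2). -/
theorem result : ∃ E : Set ℝ, Perfect E ∧ ContainsAllFinitePatterns E ∧
    (∀ μ : Measure ℝ, IsMeasureOn μ E → ¬ Decays μ) ∧
    ¬ ∃ μ : Measure ℝ, IsMeasureOn μ E ∧ Decays μ ∧ IsSalem μ.support := by
  have key : ∀ μ : Measure ℝ, IsMeasureOn μ Q84.HSet.E → ¬ Decays μ := by
    rintro μ ⟨h1, h2, h3⟩
    refine Q84.Raj.no_decay μ h2 ?_
    exact measure_mono_null (Set.compl_subset_compl.2 h3) Measure.measure_compl_support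
  refine ⟨Q84.HSet.E, Q84.HSet.E_perfect, Q84.HSet.E_pattern, key, ?_⟩
  rintro ⟨μ, h1, h2, _⟩
  exact key μ h1 h2

end Pool.Agent.Results.MP_701998_an.NoDecayingMeasure
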